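import Pool.Agent.Lib_helper20.FP.Shares

/-!
# Almost all multiples of `9 q`: four sets, or eleven twenty-sevenths
-/

set_option autoImplicit false

namespace Pool.Agent.Lib_helper20.FP

open Finset Pool.Agent.Lib_helper31.PS

/-- the numbers `≡ 0, a q, - a q` modulo `9 q` -/
def XX (q a : ℕ) : Set ℕ :=
  {d : ℕ | d ≡ 0 [MOD 9 * q] ∨ d ≡ a * q [MOD 9 * q] ∨ d ≡ (9 - a) * q [MOD 9 * q]}

theorem terms {D : Set ℕ} {η c C : ℝ} (hT : ThreeTerm D η c C) {q : ℕ} (hq : 0 < q) (hq2 : Even q)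
    (h9 : FewOf D {d | d ≡ 0 [MOD 9 * q]} c C) (a b b₁ b₂ : ℕ) (ha : a ≤ 9)
    (h1 : b₁ + a ≡ b [MOD 9]) (h2 : b + a ≡ b₂ [MOD 9]) (hb : 3 ∣ b)
    (hX : ¬ FewOf D (XX q a) c (3 * C)) (e : ℝ) (he : 0 < e) :
    ∃ L : ℕ, ∀ n ≥ L, ∀ x : ℕ, ((1 - η) / ((9 * q : ℕ) : ℝ) - e) * n ≤
      (cnt D (9 * q) (b₁ * q) x n : ℝ) + cnt D (9 * q) (b * q) x n +
        cnt D (9 * q) (b₂ * q) x n := by
  have hM0 : 0 < 9 * q := by omega
  have hM : 6 ∣ 9 * q := by
    have := hq2.two_dvd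
    omega
  have hbq : Even (b * q) := hq2.mul_left b
  have hb3 : 3 ∣ b * q := hb.mul_right q
  by_cases hA : FewOf D {d | d ≡ a * q [MOD 9 * q]} c C
  · by_cases hB : FewOf D {d | d ≡ (9 - a) * q [MOD 9 * q]} c C
    · refine absurd (((h9.union (hA.union hB)).mono ?_).mono_const (by linarith)) hX
      rintro d (h | h | h)
      · exact Or.inl h
      · exact Or.inr (Or.inl h)
      · exact Or.inr (Or.inr h)
    · -- the class of `- a q`
      have k1 : b₂ * q + (9 - a) * q ≡ b * q [MOD 9 * q] := by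
        rw [← Nat.add_mul]
        refine Nat.ModEq.mul_right' q ?_
        have h3 : b₂ + (9 - a) ≡ b + a + (9 - a) [MOD 9] := Nat.ModEq.add_right _ h2.symm
        have h4 : b + a + (9 - a) = b + 9 := by omega
        rw [h4] at h3
        exact h3.trans (by simp [Nat.ModEq])
      have k2 : b * q + (9 - a) * q ≡ b₁ * q [MOD 9 * q] := by
        rw [← Nat.add_mul]
        refine Nat.ModEq.mul_right' q ?_
        have h3 : b + (9 - a) ≡ b₁ + a + (9 - a) [MOD 9] := Nat.ModEq.add_right _ h1.symm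
        have h4 : b₁ + a + (9 - a) = b₁ + 9 := by omega
        rw [h4] at h3
        exact h3.trans (by simp [Nat.ModEq])
      obtain ⟨L, hL⟩ := hT (9 * q) hM0 hM ((9 - a) * q) (b * q) (b₂ * q) (b₁ * q)
        (hq2.mul_left _) hbq (Or.inr hb3) k1 k2 hB e he
      refine ⟨L, fun n hn x => ?_⟩
      have := hL n hn x
      linarith
  · have k1 : b₁ * q + a * q ≡ b * q [MOD 9 * q] := by
      rw [← Nat.add_mul]
      exact Nat.ModEq.mul_right' q h1
    have k2 : b * q + a * q ≡ b₂ * q [MOD 9 * q] := by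
      rw [← Nat.add_mul]
      exact Nat.ModEq.mul_right' q h2
    exact hT (9 * q) hM0 hM (a * q) (b * q) (b₁ * q) (b₂ * q)
      (hq2.mul_left _) hbq (Or.inr hb3) k1 k2 hA e he

/-- the nine classes modulo `9 q` of the multiples of `q` -/
theorem cnt_nine (D : Set ℕ) {q : ℕ} (hq : 0 < q) (x n : ℕ) :
    cnt D (3 * q) 0 x n = cnt D (9 * q) (0 * q) x n + cnt D (9 * q) (3 * q) x n +
      cnt D (9 * q) (6 * q) x n ∧
    cnt D (3 * q) q x n = cnt D (9 * q) (1 * q) x n + cnt D (9 * q) (4 * q) x n +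
      cnt D (9 * q) (7 * q) x n ∧
    cnt D (3 * q) (2 * q) x n = cnt D (9 * q) (2 * q) x n + cnt D (9 * q) (5 * q) x n +
      cnt D (9 * q) (8 * q) x n ∧
    cnt D q 0 x n = cnt D (3 * q) 0 x n + cnt D (3 * q) q x n + cnt D (3 * q) (2 * q) x n := by
  have h3q : 0 < 3 * q := by omega
  have e9 : 3 * (3 * q) = 9 * q := by ring
  refine ⟨?_, ?_, ?_, ?_⟩
  · rw [cnt_three D h3q 0 x n, e9, Nat.zero_mul, Nat.zero_add, Nat.zero_add,
      show 2 * (3 * q) = 6 * q by ring]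
  · rw [cnt_three D h3q q x n, e9, show q + 3 * q = 4 * q by ring,
      show q + 2 * (3 * q) = 7 * q by ring, Nat.one_mul]
  · rw [cnt_three D h3q (2 * q) x n, e9, show 2 * q + 3 * q = 5 * q by ring,
      show 2 * q + 2 * (3 * q) = 8 * q by ring]
  · rw [cnt_three D hq 0 x n, Nat.zero_add, Nat.zero_add]

theorem case_one {D : Set ℕ} {η c C : ℝ} (hη0 : 0 ≤ η) (hT : ThreeTerm D η c C)
    {q : ℕ} (hq : 0 < q) (hq2 : Even q)
    (h9 : AlmostAllOf D {d | d ≡ 0 [MOD 9 * q]})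
    (hthird : ∀ a : ℕ, Even a → Share D (3 * q) a ((1 - η) / (3 * ((3 * q : ℕ) : ℝ))))
    (hX1 : ¬ FewOf D (XX q 1) c (3 * C)) (hX2 : ¬ FewOf D (XX q 2) c (3 * C))
    (hX4 : ¬ FewOf D (XX q 4) c (3 * C)) :
    Share D q 0 (11 / 27 * (1 - η) / (q : ℝ)) := by
  intro e he
  have he' : 0 < e / 12 := by positivity
  have hM0 : 0 < 9 * q := by omega
  have hqR : (0 : ℝ) < q := by exact_mod_cast hq
  obtain ⟨L0, hL0⟩ := cnt_full hM0 h9 (e / 12) he'
  obtain ⟨L1, hL1⟩ := hthird q hq2 (e / 12) he'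
  obtain ⟨L2, hL2⟩ := hthird (2 * q) (hq2.mul_left 2) (e / 12) he'
  have h12 : ∀ u m : ℝ, (u - e / 12) * m = u * m - e * m / 12 := fun u m => by ring
  have h13 : ∀ m : ℝ, (11 / 27 * (1 - η) / (q : ℝ) - e) * m =
      11 / 3 * ((1 - η) / ((9 * q : ℕ) : ℝ) * m) - e * m := by
    intro m
    push_cast
    field_simp
    ring
  have hfull : ∀ m : ℝ, 0 ≤ m → (1 - η) / ((9 * q : ℕ) : ℝ) * m ≤ 1 / ((9 * q : ℕ) : ℝ) * m := by
    intro m hm
    refine mul_le_mul_of_nonneg_right ?_ hm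
    exact div_le_div_of_nonneg_right (by linarith) (Nat.cast_nonneg _)
  have u1 : (1 - η) / (3 * ((3 * q : ℕ) : ℝ)) = (1 - η) / ((9 * q : ℕ) : ℝ) := by
    push_cast
    congr 1
    ring
  rw [u1] at hL1 hL2
  have hcnt : ∀ x n : ℕ, (cnt D (3 * q) 0 x n : ℝ) = cnt D (9 * q) (0 * q) x n +
      cnt D (9 * q) (3 * q) x n + cnt D (9 * q) (6 * q) x n ∧
      (cnt D (3 * q) q x n : ℝ) = cnt D (9 * q) (1 * q) x n + cnt D (9 * q) (4 * q) x n +
      cnt D (9 * q) (7 * q) x n ∧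
      (cnt D (3 * q) (2 * q) x n : ℝ) = cnt D (9 * q) (2 * q) x n +
      cnt D (9 * q) (5 * q) x n + cnt D (9 * q) (8 * q) x n ∧
      (cnt D q 0 x n : ℝ) = cnt D (3 * q) 0 x n + cnt D (3 * q) q x n +
      cnt D (3 * q) (2 * q) x n := by
    intro x n
    obtain ⟨c1, c2, c3, c4⟩ := cnt_nine D hq x n
    exact ⟨by exact_mod_cast c1, by exact_mod_cast c2, by exact_mod_cast c3, by exact_mod_cast c4⟩
  by_cases h9' : FewOf D {d | d ≡ 0 [MOD 9 * q]} c C
  · obtain ⟨L3, hL3⟩ := terms hT hq hq2 h9' 1 3 2 4 (by norm_num) (by decide) (by decide)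
      (by decide) hX1 (e / 12) he'
    obtain ⟨L4, hL4⟩ := terms hT hq hq2 h9' 1 6 5 7 (by norm_num) (by decide) (by decide)
      (by decide) hX1 (e / 12) he'
    obtain ⟨L5, hL5⟩ := terms hT hq hq2 h9' 2 3 1 5 (by norm_num) (by decide) (by decide)
      (by decide) hX2 (e / 12) he'
    obtain ⟨L6, hL6⟩ := terms hT hq hq2 h9' 2 6 4 8 (by norm_num) (by decide) (by decide)
      (by decide) hX2 (e / 12) he'
    obtain ⟨L7, hL7⟩ := terms hT hq hq2 h9' 4 3 8 7 (by norm_num) (by decide) (by decide)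
      (by decide) hX4 (e / 12) he'
    obtain ⟨L8, hL8⟩ := terms hT hq hq2 h9' 4 6 2 1 (by norm_num) (by decide) (by decide)
      (by decide) hX4 (e / 12) he'
    refine ⟨L0 + L1 + L2 + L3 + L4 + L5 + L6 + L7 + L8, fun n hn x => ?_⟩
    have g0 := hL0 n (by omega) x
    have g1 := hL1 n (by omega) x
    have g2 := hL2 n (by omega) x
    have g3 := hL3 n (by omega) x
    have g4 := hL4 n (by omega) x
    have g5 := hL5 n (by omega) x
    have g6 := hL6 n (by omega) x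
    have g7 := hL7 n (by omega) x
    have g8 := hL8 n (by omega) x
    obtain ⟨c1, c2, c3, c4⟩ := hcnt x n
    rw [Nat.zero_mul] at c1
    have hf := hfull n (Nat.cast_nonneg n)
    change _ ≤ (cnt D q 0 x n : ℝ)
    change _ ≤ (cnt D (3 * q) q x n : ℝ) at g1
    change _ ≤ (cnt D (3 * q) (2 * q) x n : ℝ) at g2
    rw [h13, c4, c1, c2, c3]
    rw [c2] at g1
    rw [c3] at g2
    have hen : 0 ≤ e * n := by positivity
    rw [h12] at g0 g1 g2 g3 g4 g5 g6 g7 g8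
    linarith
  · have hM : 6 ∣ 9 * q := by
      have := hq2.two_dvd
      omega
    have hcl : ∀ i : ℕ, Share D (9 * q) (i * q) ((1 - η) / (3 * ((9 * q : ℕ) : ℝ))) := fun i =>
      third_of hT hM0 hM h9' _ (hq2.mul_left i)
    obtain ⟨L3, hL3⟩ := hcl 1 (e / 12) he'
    obtain ⟨L4, hL4⟩ := hcl 2 (e / 12) he'
    obtain ⟨L5, hL5⟩ := hcl 3 (e / 12) he'
    obtain ⟨L6, hL6⟩ := hcl 4 (e / 12) he'
    obtain ⟨L7, hL7⟩ := hcl 5 (e / 12) he'
    obtain ⟨L8, hL8⟩ := hcl 6 (e / 12) he'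
    obtain ⟨L9, hL9⟩ := hcl 7 (e / 12) he'
    obtain ⟨L10, hL10⟩ := hcl 8 (e / 12) he'
    refine ⟨L0 + L3 + L4 + L5 + L6 + L7 + L8 + L9 + L10, fun n hn x => ?_⟩
    have g0 := hL0 n (by omega) x
    have g3 := hL3 n (by omega) x
    have g4 := hL4 n (by omega) x
    have g5 := hL5 n (by omega) x
    have g6 := hL6 n (by omega) x
    have g7 := hL7 n (by omega) x
    have g8 := hL8 n (by omega) x
    have g9 := hL9 n (by omega) x
    have g10 := hL10 n (by omega) x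
    change _ ≤ (cnt D (9 * q) (1 * q) x n : ℝ) at g3
    change _ ≤ (cnt D (9 * q) (2 * q) x n : ℝ) at g4
    change _ ≤ (cnt D (9 * q) (3 * q) x n : ℝ) at g5
    change _ ≤ (cnt D (9 * q) (4 * q) x n : ℝ) at g6
    change _ ≤ (cnt D (9 * q) (5 * q) x n : ℝ) at g7
    change _ ≤ (cnt D (9 * q) (6 * q) x n : ℝ) at g8
    change _ ≤ (cnt D (9 * q) (7 * q) x n : ℝ) at g9
    change _ ≤ (cnt D (9 * q) (8 * q) x n : ℝ) at g10
    obtain ⟨c1, c2, c3, c4⟩ := hcnt x n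
    rw [Nat.zero_mul] at c1
    have hf := hfull n (Nat.cast_nonneg n)
    change _ ≤ (cnt D q 0 x n : ℝ)
    rw [h13, c4, c1, c2, c3]
    have hen : 0 ≤ e * n := by positivity
    have h14 : (1 - η) / (3 * ((9 * q : ℕ) : ℝ)) * n = (1 - η) / ((9 * q : ℕ) : ℝ) * n / 3 := by
      field_simp
    rw [h12] at g0 g3 g4 g5 g6 g7 g8 g9 g10
    rw [h14] at g3 g4 g5 g6 g7 g8 g9 g10
    linarith

end Pool.Agent.Lib_helper20.FP
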