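import Pool.Agent.Lib_helper20.FP.Shares
import Pool.Agent.Lib_helper47.TA.F2.FIN2

/-!
# From the windows of `TA.ta_windows2` to shares
-/

set_option autoImplicit false

namespace Pool.Agent.Lib_helper20.FP

open Finset Pool.Agent.Lib_helper31.PS

/-- from windows of multiples to windows -/
theorem share_of_windows {D : Set ℕ} {q : ℕ} (hq : 0 < q) (s : ℝ) (hs : 0 ≤ s)
    (h : ∃ L : ℕ, ∀ a N : ℕ, L ≤ N →
      s * N ≤ (({j : ℕ | q * (a + j) ∈ D} ∩ Set.Iio N).ncard : ℝ)) : Share D q 0 (s / q) := by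
  intro e he
  have hqR : (0 : ℝ) < q := by exact_mod_cast hq
  obtain ⟨L, hL⟩ := h
  obtain ⟨n₁, hn₁⟩ := exists_nat_gt (s / e)
  refine ⟨q * (L + 1) + n₁, fun n hn x => ?_⟩
  obtain ⟨hw1, hw2⟩ := window_div hq x n
  set N := (x + n) / q - x / q with hN
  have hn1 : q * (L + 1) ≤ n := by omega
  have hn2 : n₁ ≤ n := by omega
  have hNL : L ≤ N := by
    have h1 : ((q * (L + 1) : ℕ) : ℝ) ≤ n := by exact_mod_cast hn1
    have h2 : ((L : ℝ) + 1) ≤ n / q := by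
      rw [le_div_iff₀ hqR]
      push_cast at h1
      linarith
    have h3 : (L : ℝ) ≤ N := by linarith
    exact_mod_cast h3
  have h4 := hL (x / q + 1) N hNL
  have h5 : ({j : ℕ | q * (x / q + 1 + j) ∈ D} ∩ Set.Iio N).ncard ≤
      ({d : ℕ | d ≡ 0 [MOD q] ∧ d ∈ D} ∩ Set.Ioc x (x + n)).ncard := by
    refine Set.ncard_le_ncard_of_injOn (fun j => q * (x / q + 1 + j)) ?_ ?_
      ((Set.finite_Ioc _ _).inter_of_right _)
    · rintro j ⟨hj1, hj2⟩
      have hj3 : j < N := hj2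
      refine ⟨⟨(Nat.modEq_zero_iff_dvd).2 (Dvd.intro _ rfl), hj1⟩, ?_, ?_⟩
      · show x < q * (x / q + 1 + j)
        have := Nat.div_add_mod x q
        have := Nat.mod_lt x hq
        nlinarith
      · show q * (x / q + 1 + j) ≤ x + n
        have h6 : x / q + 1 + j ≤ (x + n) / q := by omega
        exact (Nat.mul_le_mul_left q h6).trans (Nat.mul_div_le _ _)
    · intro j _ j' _ hjj
      have h6 : x / q + 1 + j = x / q + 1 + j' := Nat.eq_of_mul_eq_mul_left hq hjj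
      omega
  have h6 : (({j : ℕ | q * (x / q + 1 + j) ∈ D} ∩ Set.Iio N).ncard : ℝ) ≤
      (({d : ℕ | d ≡ 0 [MOD q] ∧ d ∈ D} ∩ Set.Ioc x (x + n)).ncard : ℝ) := by exact_mod_cast h5
  refine le_trans ?_ (h4.trans h6)
  have h7 : s / e < n := hn₁.trans_le (by exact_mod_cast hn2)
  rw [div_lt_iff₀ he] at h7
  have h8 : s * ((n : ℝ) / q - 1) ≤ s * N := mul_le_mul_of_nonneg_left hw1 hs
  have h9 : (s / q - e) * n = s * ((n : ℝ) / q - 1) + s - n * e := by ring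
  rw [h9]
  linarith

/-- the same for almost all elements -/
theorem almostAllOf_of_windows {D : Set ℕ} {q Q : ℕ} (hq : 0 < q) (J : Finset (ZMod Q))
    (h : ∀ η : ℝ, 0 < η → ∃ L : ℕ, ∀ a N : ℕ, L ≤ N →
      (({j : ℕ | ((a + j : ℕ) : ZMod Q) ∈ J ∧ q * (a + j) ∉ D} ∩ Set.Iio N).ncard : ℝ) ≤ η * N) :
    AlmostAllOf D {d : ℕ | ∃ i : ℕ, d = q * i ∧ (i : ZMod Q) ∈ J} := by
  intro η hη
  have hqR : (0 : ℝ) < q := by exact_mod_cast hq
  obtain ⟨L, hL⟩ := h (η / 2) (by positivity)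
  refine ⟨q * (L + 1), fun n hn x => ?_⟩
  obtain ⟨hw1, hw2⟩ := window_div hq x n
  set N := (x + n) / q - x / q with hN
  have hn1 : ((q * (L + 1) : ℕ) : ℝ) ≤ n := by exact_mod_cast hn
  have hn2 : ((L : ℝ) + 1) ≤ n / q := by
    rw [le_div_iff₀ hqR]
    push_cast at hn1
    linarith
  have hNL : L ≤ N := by
    have h3 : (L : ℝ) ≤ N := by linarith
    exact_mod_cast h3
  have h4 := hL (x / q + 1) N hNL
  have h5 : ({d : ℕ | d ∈ {d : ℕ | ∃ i : ℕ, d = q * i ∧ (i : ZMod Q) ∈ J} ∧ d ∉ D} ∩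
        Set.Ioc x (x + n)).ncard ≤
      ({j : ℕ | ((x / q + 1 + j : ℕ) : ZMod Q) ∈ J ∧ q * (x / q + 1 + j) ∉ D} ∩
        Set.Iio N).ncard := by
    refine Set.ncard_le_ncard_of_injOn (fun d => d / q - (x / q + 1)) ?_ ?_
      ((Set.finite_Iio _).inter_of_right _)
    · rintro d ⟨⟨⟨i, rfl, hi⟩, hd2⟩, hd3, hd4⟩
      have h6 : q * i / q = i := Nat.mul_div_cancel_left i hq
      have h7 : x / q < i := (Nat.div_lt_iff_lt_mul hq).2 (by rw [mul_comm]; exact hd3)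
      have h8 : i ≤ (x + n) / q := (Nat.le_div_iff_mul_le hq).2 (by rw [mul_comm]; exact hd4)
      have h9 : x / q + 1 + (i - (x / q + 1)) = i := by omega
      show q * i / q - (x / q + 1) ∈ _
      rw [h6]
      refine ⟨⟨?_, ?_⟩, ?_⟩
      · rw [h9]
        exact hi
      · rw [h9]
        exact hd2
      · show i - (x / q + 1) < N
        omega
    · rintro d ⟨⟨⟨i, rfl, hi⟩, hd2⟩, hd3, hd4⟩ d' ⟨⟨⟨i', rfl, hi'⟩, hd2'⟩, hd3', hd4'⟩ hdd
      have hdd' : q * i / q - (x / q + 1) = q * i' / q - (x / q + 1) := hdd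
      rw [Nat.mul_div_cancel_left i hq, Nat.mul_div_cancel_left i' hq] at hdd'
      have h7 : x / q < i := (Nat.div_lt_iff_lt_mul hq).2 (by rw [mul_comm]; exact hd3)
      have h7' : x / q < i' := (Nat.div_lt_iff_lt_mul hq).2 (by rw [mul_comm]; exact hd3')
      have h8 : i = i' := by omega
      rw [h8]
  have h6 : (({d : ℕ | d ∈ {d : ℕ | ∃ i : ℕ, d = q * i ∧ (i : ZMod Q) ∈ J} ∧ d ∉ D} ∩
        Set.Ioc x (x + n)).ncard : ℝ) ≤
      (({j : ℕ | ((x / q + 1 + j : ℕ) : ZMod Q) ∈ J ∧ q * (x / q + 1 + j) ∉ D} ∩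
        Set.Iio N).ncard : ℝ) := by exact_mod_cast h5
  refine h6.trans (h4.trans ?_)
  have hq1 : (1 : ℝ) ≤ q := by exact_mod_cast hq
  have h7 : (n : ℝ) / q ≤ n := div_le_self (Nat.cast_nonneg n) hq1
  have h8 : (1 : ℝ) ≤ n / q := by
    have : (0 : ℝ) ≤ L := Nat.cast_nonneg L
    linarith
  have h9 : (N : ℝ) ≤ 2 * n := by linarith
  calc η / 2 * (N : ℝ) ≤ η / 2 * (2 * n) := mul_le_mul_of_nonneg_left h9 (by positivity)
    _ = η * n := by ring

end Pool.Agent.Lib_helper20.FP
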