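import Pool.Agent.Lib_helper31.PS.Base

/-!
# Few exceptions, almost all elements of a set; counts in residue classes
-/

set_option autoImplicit false

namespace Pool.Agent.Lib_helper20.FP

open Finset Pool.Agent.Lib_helper31.PS

/-- the number of elements of `D` in the window `(x, x + n]` in the class of `a` modulo `M` -/
noncomputable def cnt (D : Set ℕ) (M a x n : ℕ) : ℕ :=
  ({d : ℕ | d ≡ a [MOD M] ∧ d ∈ D} ∩ Set.Ioc x (x + n)).ncard

theorem cnt_eq (D : Set ℕ) [DecidablePred (· ∈ D)] (M a x n : ℕ) :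
    cnt D M a x n = ((Ioc x (x + n)).filter fun y => y ≡ a [MOD M] ∧ y ∈ D).card := by
  unfold cnt
  rw [← Set.ncard_coe_finset]
  congr 1
  ext y
  simp only [coe_filter, mem_Ioc, Set.mem_inter_iff, Set.mem_Ioc, Set.mem_ofPred_eq]
  tauto

/-- In every long window almost all elements of `X` are in `D`. -/
def AlmostAllOf (D X : Set ℕ) : Prop := ∀ η : ℝ, 0 < η → ∃ L : ℕ, ∀ n ≥ L, ∀ x : ℕ,
  (({d : ℕ | d ∈ X ∧ d ∉ D} ∩ Set.Ioc x (x + n)).ncard : ℝ) ≤ η * n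

theorem AlmostAllOf.mono {D X Y : Set ℕ} (h : AlmostAllOf D X) (hXY : Y ⊆ X) :
    AlmostAllOf D Y := by
  intro η hη
  obtain ⟨L, hL⟩ := h η hη
  refine ⟨L, fun n hn x => le_trans ?_ (hL n hn x)⟩
  refine Nat.cast_le.2 (Set.ncard_le_ncard ?_ ((Set.finite_Ioc _ _).inter_of_right _))
  rintro d ⟨⟨h1, h2⟩, h3⟩
  exact ⟨⟨hXY h1, h2⟩, h3⟩

theorem AlmostAllOf.union {D X Y : Set ℕ} (h : AlmostAllOf D X) (h' : AlmostAllOf D Y) :
    AlmostAllOf D (X ∪ Y) := by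
  intro η hη
  obtain ⟨L, hL⟩ := h (η / 2) (by positivity)
  obtain ⟨L', hL'⟩ := h' (η / 2) (by positivity)
  refine ⟨max L L', fun n hn x => ?_⟩
  have h1 := hL n ((le_max_left _ _).trans hn) x
  have h2 := hL' n ((le_max_right _ _).trans hn) x
  have h3 : ({d : ℕ | d ∈ X ∪ Y ∧ d ∉ D} ∩ Set.Ioc x (x + n)).ncard ≤
      ({d : ℕ | d ∈ X ∧ d ∉ D} ∩ Set.Ioc x (x + n)).ncard +
      ({d : ℕ | d ∈ Y ∧ d ∉ D} ∩ Set.Ioc x (x + n)).ncard := by
    refine le_trans (Set.ncard_le_ncard ?_ ((Set.Finite.inter_of_right (Set.finite_Ioc _ _) _).union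
      (Set.Finite.inter_of_right (Set.finite_Ioc _ _) _))) (Set.ncard_union_le _ _)
    rintro d ⟨⟨h4 | h4, h5⟩, h6⟩
    · exact Or.inl ⟨⟨h4, h5⟩, h6⟩
    · exact Or.inr ⟨⟨h4, h5⟩, h6⟩
  have h4 : ((({d : ℕ | d ∈ X ∪ Y ∧ d ∉ D} ∩ Set.Ioc x (x + n)).ncard : ℕ) : ℝ) ≤
      (({d : ℕ | d ∈ X ∧ d ∉ D} ∩ Set.Ioc x (x + n)).ncard : ℝ) +
      (({d : ℕ | d ∈ Y ∧ d ∉ D} ∩ Set.Ioc x (x + n)).ncard : ℝ) := by exact_mod_cast h3
  linarith

/-- Every window of length `n` contains at most `C * n ^ (1 - c)` elements of `X` outside `D`. -/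
def FewOf (D X : Set ℕ) (c C : ℝ) : Prop := ∀ n x : ℕ, 0 < n →
  (({d : ℕ | d ∈ X ∧ d ∉ D} ∩ Set.Ioc x (x + n)).ncard : ℝ) ≤ C * (n : ℝ) ^ (1 - c)

theorem FewOf.mono {D X Y : Set ℕ} {c C : ℝ} (h : FewOf D X c C) (hXY : Y ⊆ X) :
    FewOf D Y c C := by
  intro n x hn
  refine le_trans ?_ (h n x hn)
  refine Nat.cast_le.2 (Set.ncard_le_ncard ?_ ((Set.finite_Ioc _ _).inter_of_right _))
  rintro d ⟨⟨h1, h2⟩, h3⟩
  exact ⟨⟨hXY h1, h2⟩, h3⟩

theorem FewOf.union {D X Y : Set ℕ} {c C C' : ℝ} (h : FewOf D X c C) (h' : FewOf D Y c C') :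
    FewOf D (X ∪ Y) c (C + C') := by
  intro n x hn
  have h1 := h n x hn
  have h2 := h' n x hn
  have h3 : ({d : ℕ | d ∈ X ∪ Y ∧ d ∉ D} ∩ Set.Ioc x (x + n)).ncard ≤
      ({d : ℕ | d ∈ X ∧ d ∉ D} ∩ Set.Ioc x (x + n)).ncard +
      ({d : ℕ | d ∈ Y ∧ d ∉ D} ∩ Set.Ioc x (x + n)).ncard := by
    refine le_trans (Set.ncard_le_ncard ?_ ((Set.Finite.inter_of_right (Set.finite_Ioc _ _) _).union
      (Set.Finite.inter_of_right (Set.finite_Ioc _ _) _))) (Set.ncard_union_le _ _)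
    rintro d ⟨⟨h4 | h4, h5⟩, h6⟩
    · exact Or.inl ⟨⟨h4, h5⟩, h6⟩
    · exact Or.inr ⟨⟨h4, h5⟩, h6⟩
  have h4 : ((({d : ℕ | d ∈ X ∪ Y ∧ d ∉ D} ∩ Set.Ioc x (x + n)).ncard : ℕ) : ℝ) ≤
      (({d : ℕ | d ∈ X ∧ d ∉ D} ∩ Set.Ioc x (x + n)).ncard : ℝ) +
      (({d : ℕ | d ∈ Y ∧ d ∉ D} ∩ Set.Ioc x (x + n)).ncard : ℝ) := by exact_mod_cast h3
  rw [add_mul]
  linarith

theorem FewOf.const_nonneg {D X : Set ℕ} {c C : ℝ} (h : FewOf D X c C) : 0 ≤ C := by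
  have h1 := h 1 0 one_pos
  rw [Nat.cast_one, Real.one_rpow, mul_one] at h1
  exact (Nat.cast_nonneg _).trans h1

theorem FewOf.mono_const {D X : Set ℕ} {c C C' : ℝ} (h : FewOf D X c C) (hC : C ≤ C') :
    FewOf D X c C' := by
  intro n x hn
  refine (h n x hn).trans (mul_le_mul_of_nonneg_right hC ?_)
  positivity

theorem FewOf.almostAllOf {D X : Set ℕ} {c C : ℝ} (hc : 0 < c) (h : FewOf D X c C) :
    AlmostAllOf D X := by
  intro η hη
  have h1 : Filter.Tendsto (fun x : ℝ => x ^ (-c)) Filter.atTop (nhds 0) :=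
    tendsto_rpow_neg_atTop hc
  have h2 := (h1.comp tendsto_natCast_atTop_atTop).const_mul C
  rw [mul_zero] at h2
  have h3 := (h2.eventually (ge_mem_nhds hη)).and (Filter.eventually_gt_atTop 0)
  obtain ⟨L, hL⟩ := Filter.eventually_atTop.1 h3
  refine ⟨L, fun n hn x => ?_⟩
  obtain ⟨h4, h5⟩ := hL n hn
  have hnR : (0 : ℝ) < n := by exact_mod_cast h5
  refine (h n x h5).trans ?_
  have h6 : C * (n : ℝ) ^ (1 - c) = C * (n : ℝ) ^ (-c) * n := by
    rw [sub_eq_add_neg, Real.rpow_add hnR, Real.rpow_one]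
    ring
  rw [h6]
  exact mul_le_mul_of_nonneg_right h4 hnR.le

/-- a class almost all of whose elements are in `D` -/
theorem cnt_full {D : Set ℕ} {M a : ℕ} (hM : 0 < M) (h : AlmostAllOf D {d | d ≡ a [MOD M]}) (e : ℝ)
    (he : 0 < e) : ∃ L : ℕ, ∀ n ≥ L, ∀ x : ℕ, (1 / (M : ℝ) - e) * n ≤ cnt D M a x n := by
  classical
  obtain ⟨L, hL⟩ := h (e / 2) (by positivity)
  obtain ⟨N, hN⟩ := exists_nat_gt (1 / (e / 2))
  refine ⟨max L N, fun n hn x => ?_⟩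
  have h1 := hL n ((le_max_left _ _).trans hn) x
  have h2 := class_count M a n x hM
  have h3 : ({d : ℕ | d ∈ {d | d ≡ a [MOD M]} ∧ d ∉ D} ∩ Set.Ioc x (x + n)).ncard =
      ((Ioc x (x + n)).filter fun y => y ≡ a [MOD M] ∧ y ∉ D).card := by
    rw [← Set.ncard_coe_finset]
    congr 1
    ext y
    simp only [coe_filter, mem_Ioc, Set.mem_inter_iff, Set.mem_Ioc, Set.mem_ofPred_eq]
    tauto
  rw [h3] at h1
  have h4 : ((Ioc x (x + n)).filter fun y => y ≡ a [MOD M]).card ≤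
      ((Ioc x (x + n)).filter fun y => y ≡ a [MOD M] ∧ y ∈ D).card +
      ((Ioc x (x + n)).filter fun y => y ≡ a [MOD M] ∧ y ∉ D).card := by
    refine le_trans (card_le_card ?_) (card_union_le _ _)
    intro y hy
    rw [mem_filter] at hy
    rw [mem_union, mem_filter, mem_filter]
    by_cases c : y ∈ D
    · exact Or.inl ⟨hy.1, hy.2, c⟩
    · exact Or.inr ⟨hy.1, hy.2, c⟩
  rw [← cnt_eq] at h4
  have h5 : ((n / M : ℕ) : ℝ) ≤ cnt D M a x n +
      ((Ioc x (x + n)).filter fun y => y ≡ a [MOD M] ∧ y ∉ D).card := by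
    exact_mod_cast h2.trans h4
  have hMR : (0 : ℝ) < M := by exact_mod_cast hM
  have h9 : (n : ℝ) / M - 1 ≤ ((n / M : ℕ) : ℝ) := by
    have h10 : n < M * (n / M + 1) := Nat.lt_mul_div_succ n hM
    have h11 : (n : ℝ) ≤ M * (((n / M : ℕ) : ℝ) + 1) := by exact_mod_cast h10.le
    rw [sub_le_iff_le_add, div_le_iff₀ hMR]
    linarith
  have hnN : 1 / (e / 2) < (n : ℝ) :=
    hN.trans_le (by exact_mod_cast (le_max_right _ _).trans hn)
  rw [div_lt_iff₀ (by positivity)] at hnN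
  have h13 : (1 / (M : ℝ) - e) * n = (n : ℝ) / M - e * n := by ring
  rw [h13]
  linarith

theorem modEq_three (m a y : ℕ) : y ≡ a [MOD m] ↔
    y ≡ a [MOD 3 * m] ∨ y ≡ a + m [MOD 3 * m] ∨ y ≡ a + 2 * m [MOD 3 * m] := by
  rw [Nat.modEq_iff_dvd, Nat.modEq_iff_dvd, Nat.modEq_iff_dvd, Nat.modEq_iff_dvd]
  push_cast
  constructor
  · rintro ⟨k, hk⟩
    rcases (by omega : k % 3 = 0 ∨ k % 3 = 1 ∨ k % 3 = 2) with h | h | h
    · left
      refine ⟨k / 3, ?_⟩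
      have h1 : k = 3 * (k / 3) := by omega
      rw [hk]
      linear_combination (m : ℤ) * h1
    · right
      right
      refine ⟨k / 3 + 1, ?_⟩
      have h1 : k = 3 * (k / 3) + 1 := by omega
      linear_combination hk + (m : ℤ) * h1
    · right
      left
      refine ⟨k / 3 + 1, ?_⟩
      have h1 : k = 3 * (k / 3) + 2 := by omega
      linear_combination hk + (m : ℤ) * h1
  · rintro (⟨k, hk⟩ | ⟨k, hk⟩ | ⟨k, hk⟩)
    · exact ⟨3 * k, by linear_combination hk⟩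
    · exact ⟨3 * k - 1, by linear_combination hk⟩
    · exact ⟨3 * k - 2, by linear_combination hk⟩

theorem modEq_add_ne {m a j : ℕ} (Q : ℕ) (hj0 : 0 < j) (hj : j < Q) (hm : 0 < m) (y : ℕ)
    (h1 : y ≡ a [MOD Q * m]) (h2 : y ≡ a + j * m [MOD Q * m]) : False := by
  have h3 : a + 0 ≡ a + j * m [MOD Q * m] := h1.symm.trans h2
  have h4 : 0 ≡ j * m [MOD Q * m] := Nat.ModEq.add_left_cancel' a h3
  have h5 : 0 * m ≡ j * m [MOD Q * m] := by rwa [Nat.zero_mul]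
  have h6 : 0 ≡ j [MOD Q] := Nat.ModEq.mul_right_cancel' hm.ne' h5
  have h7 : 0 % Q = j % Q := h6
  rw [Nat.zero_mod, Nat.mod_eq_of_lt hj] at h7
  omega

/-- a class modulo `m` consists of three classes modulo `3 m` -/
theorem cnt_three (D : Set ℕ) {m : ℕ} (hm : 0 < m) (a x n : ℕ) : cnt D m a x n =
    cnt D (3 * m) a x n + cnt D (3 * m) (a + m) x n + cnt D (3 * m) (a + 2 * m) x n := by
  classical
  rw [cnt_eq, cnt_eq, cnt_eq, cnt_eq, ← card_union_of_disjoint, ← card_union_of_disjoint]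
  · congr 1
    ext y
    simp only [mem_union, mem_filter]
    rw [modEq_three m a y]
    tauto
  · rw [disjoint_left]
    intro y hy hy'
    rw [mem_union, mem_filter, mem_filter] at hy
    rw [mem_filter] at hy'
    rcases hy with hy | hy
    · exact modEq_add_ne 3 (j := 2) (by norm_num) (by norm_num) hm y hy.2.1 hy'.2.1
    · refine modEq_add_ne 3 (a := a + m) (j := 1) (by norm_num) (by norm_num) hm y hy.2.1 ?_
      have h1 : a + m + 1 * m = a + 2 * m := by ring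
      rw [h1]
      exact hy'.2.1
  · rw [disjoint_left]
    intro y hy hy'
    rw [mem_filter] at hy hy'
    refine modEq_add_ne 3 (a := a) (j := 1) (by norm_num) (by norm_num) hm y hy.2.1 ?_
    rw [one_mul]
    exact hy'.2.1

/-- **three terms**: if the class of `c₀` modulo `M` contains more than few elements outside `D`, the
classes of `b - c₀`, `b`, `b + c₀` contain together at least the share `1 - η` of one class -/
def ThreeTerm (D : Set ℕ) (η c C : ℝ) : Prop := ∀ M : ℕ, 0 < M → 6 ∣ M → ∀ c₀ b b₁ b₂ : ℕ,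
  Even c₀ → Even b → (3 ∣ c₀ ∨ 3 ∣ b) → b₁ + c₀ ≡ b [MOD M] → b + c₀ ≡ b₂ [MOD M] →
  ¬ FewOf D {d | d ≡ c₀ [MOD M]} c C → ∀ e : ℝ, 0 < e → ∃ L : ℕ, ∀ n ≥ L, ∀ x : ℕ,
    ((1 - η) / (M : ℝ) - e) * n ≤ (cnt D M b₁ x n : ℝ) + cnt D M b x n + cnt D M b₂ x n

/-- a third of every even class -/
theorem third_of {D : Set ℕ} {η c C : ℝ} (hT : ThreeTerm D η c C) {M : ℕ} (hM0 : 0 < M) (hM : 6 ∣ M)
    (h : ¬ FewOf D {d | d ≡ 0 [MOD M]} c C) (a : ℕ) (ha : Even a) :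
    Share D M a ((1 - η) / (3 * (M : ℝ))) := by
  intro e he
  obtain ⟨L, hL⟩ := hT M hM0 hM 0 a a a (by simp) ha (Or.inl (dvd_zero 3)) (Nat.ModEq.refl _)
    (Nat.ModEq.refl _) h (3 * e) (by positivity)
  refine ⟨L, fun n hn x => ?_⟩
  have h1 := hL n hn x
  change _ ≤ (cnt D M a x n : ℝ)
  have h2 : ((1 - η) / (M : ℝ) - 3 * e) * n = 3 * (((1 - η) / (3 * (M : ℝ)) - e) * n) := by
    have hMR : (M : ℝ) ≠ 0 := by exact_mod_cast hM0.ne'
    field_simp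
  rw [h2] at h1
  linarith

end Pool.Agent.Lib_helper20.FP
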