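import Mathlib

/-!
# Sums over types of classes
-/

set_option autoImplicit false

namespace Pool.Agent.Lib_helper20.FP

open Finset

/-- the elements of type `t` -/
def ty {N : ℕ} [NeZero N] (π : ZMod N →+* ZMod 3) (t : ZMod 3) : Finset (ZMod N) :=
  univ.filter fun i => π i = t

theorem mem_ty {N : ℕ} [NeZero N] (π : ZMod N →+* ZMod 3) (t : ZMod 3) (i : ZMod N) :
    i ∈ ty π t ↔ π i = t := by
  unfold ty
  simp

theorem sum_ty_add {N : ℕ} [NeZero N] (π : ZMod N →+* ZMod 3) (a : ZMod N → ℝ) (b : ZMod N)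
    (hb : π b = 0) : ∑ c ∈ ty π 1, a (b + c) = ∑ i ∈ ty π 1, a i := by
  refine sum_equiv (Equiv.addLeft b) (fun c => ?_) (fun c _ => rfl)
  rw [mem_ty, mem_ty]
  simp [hb]

theorem sum_ty_sub {N : ℕ} [NeZero N] (π : ZMod N →+* ZMod 3) (a : ZMod N → ℝ) (b : ZMod N)
    (hb : π b = 0) : ∑ c ∈ ty π 1, a (b - c) = ∑ i ∈ ty π 2, a i := by
  refine sum_equiv (Equiv.subLeft b) (fun c => ?_) (fun c _ => rfl)
  rw [mem_ty, mem_ty]
  simp only [Equiv.subLeft_apply, map_sub, hb, zero_sub]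
  constructor
  · intro h
    rw [h]
    decide
  · intro h
    have h1 : π c = - 2 := by rw [← h, neg_neg]
    rw [h1]
    decide

open Classical in
/-- the sum over the centre `b` -/
theorem center {N : ℕ} [NeZero N] (π : ZMod N →+* ZMod 3) (a : ZMod N → ℝ) (ha : ∀ i, 0 ≤ a i)
    (full : ZMod N → Prop) (u : ℝ)
    (hJ : ∀ c b, ¬ full c → π b = 0 → u ≤ a (b - c) + a b + a (b + c)) (b : ZMod N)
    (hb : π b = 0) :
    (#((ty π 1).filter fun c => ¬ (full c ∧ full (-c))) : ℝ) * u ≤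
      ∑ i ∈ ty π 1, a i + ∑ i ∈ ty π 2, a i +
        (#((ty π 1).filter fun c => ¬ (full c ∧ full (-c))) : ℝ) * a b := by
  set G := (ty π 1).filter fun c => ¬ (full c ∧ full (-c)) with hG
  have h1 : ∀ c ∈ G, u ≤ a (b - c) + a b + a (b + c) := by
    intro c hc
    rw [hG, mem_filter] at hc
    by_cases h : full c
    · have h2 : ¬ full (-c) := fun h3 => hc.2 ⟨h, h3⟩
      have h3 := hJ (-c) b h2 hb
      have e1 : b - -c = b + c := by ring
      have e2 : b + -c = b - c := by ring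
      rw [e1, e2] at h3
      linarith
    · exact hJ c b h hb
  have h2 := sum_le_sum h1
  rw [sum_const, nsmul_eq_mul, sum_add_distrib, sum_add_distrib, sum_const, nsmul_eq_mul] at h2
  have h3 : ∑ c ∈ G, a (b - c) ≤ ∑ i ∈ ty π 2, a i := by
    rw [← sum_ty_sub π a b hb]
    exact sum_le_sum_of_subset_of_nonneg (filter_subset _ _) fun i _ _ => ha _
  have h4 : ∑ c ∈ G, a (b + c) ≤ ∑ i ∈ ty π 1, a i := by
    rw [← sum_ty_add π a b hb]
    exact sum_le_sum_of_subset_of_nonneg (filter_subset _ _) fun i _ _ => ha _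
  linarith

open Classical in
/-- the full pairs -/
theorem full_pairs {N : ℕ} [NeZero N] (π : ZMod N →+* ZMod 3) (a : ZMod N → ℝ)
    (ha : ∀ i, 0 ≤ a i) (full : ZMod N → Prop) (u : ℝ) (hfull : ∀ i, full i → u ≤ a i) :
    2 * ((#(ty π 1) : ℝ) - #((ty π 1).filter fun c => ¬ (full c ∧ full (-c)))) * u ≤
      ∑ i ∈ ty π 1, a i + ∑ i ∈ ty π 2, a i := by
  set F := (ty π 1).filter fun c => full c ∧ full (-c) with hF
  have h0 : #(ty π 1) = #F + #((ty π 1).filter fun c => ¬ (full c ∧ full (-c))) := by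
    rw [hF]
    exact (card_filter_add_card_filter_not _).symm
  have h1 : (#F : ℝ) * u ≤ ∑ i ∈ ty π 1, a i := by
    have h2 : ∑ i ∈ F, u ≤ ∑ i ∈ F, a i := sum_le_sum fun i hi => by
      rw [hF, mem_filter] at hi
      exact hfull i hi.2.1
    rw [sum_const, nsmul_eq_mul] at h2
    exact h2.trans (sum_le_sum_of_subset_of_nonneg (filter_subset _ _) fun i _ _ => ha _)
  have h2 : (#F : ℝ) * u ≤ ∑ i ∈ ty π 2, a i := by
    have h2 : ∑ i ∈ F, u ≤ ∑ i ∈ F, a (-i) := sum_le_sum fun i hi => by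
      rw [hF, mem_filter] at hi
      exact hfull (-i) hi.2.2
    rw [sum_const, nsmul_eq_mul] at h2
    have h3 : ∑ i ∈ F, a (-i) ≤ ∑ c ∈ ty π 1, a (0 - c) := by
      simp only [zero_sub]
      exact sum_le_sum_of_subset_of_nonneg (filter_subset _ _) fun i _ _ => ha _
    rw [sum_ty_sub π a 0 (map_zero π)] at h3
    exact h2.trans h3
  have h3 : (#(ty π 1) : ℝ) - #((ty π 1).filter fun c => ¬ (full c ∧ full (-c))) = #F := by
    rw [h0]
    push_cast
    ring
  rw [h3]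
  linarith

theorem sum_types {N : ℕ} [NeZero N] (π : ZMod N →+* ZMod 3) (a : ZMod N → ℝ) :
    ∑ i, a i = ∑ i ∈ ty π 0, a i + ∑ i ∈ ty π 1, a i + ∑ i ∈ ty π 2, a i := by
  have h := sum_fiberwise univ (fun i => π i) a
  rw [← h, show (univ : Finset (ZMod 3)) = {0, 1, 2} from rfl, sum_insert (by decide),
    sum_insert (by decide), sum_singleton, add_assoc]
  rfl

end Pool.Agent.Lib_helper20.FP
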