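import Pool.Agent.Lib_helper31.PS.Third

/-!
# Three terms for classes, with power saving
-/

set_option autoImplicit false

namespace Pool.Agent.Lib_helper20.FP

open Finset Pool.Agent.Lib_helper31.PS Pool.Agent.Lib_helper23.ES Pool.Agent.Lib_helper23.PG

/-- **four bins**: few quadruples of indices -/
theorem few_index2 {D : Set ℕ} (h0 : 0 ∉ D)
    (hfew : ∃ c : ℝ, 0 < c ∧ ∃ C : ℝ, 0 < C ∧ ∀ (r : ℕ) (A : Finset ℤ),
      Cnd r A → 0 < #A → K (NG (GZ D)) (r + 1) A ≤ C * (#A : ℝ) ^ (r + 1) * (#A : ℝ) ^ (-c))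
    (e : ℝ) (he : 0 < e) : ∃ m : ℕ, ∀ (R : ℕ) (u : ℕ → ℕ), 0 < R → Even R →
      (∀ i j, i < j → j ≤ m → u i < u j) → (∀ i j, i ≤ j → j ≤ m → 6 ∣ u j - u i) →
      (∀ i j, i ≤ j → j ≤ m → R + (u j - u i) ∉ D) → ∀ w : ℕ, 0 < w → Even w →
      (3 ∣ R ∨ 3 ∣ w + R) → ∀ Q : Finset (ℕ × ℕ × ℕ × ℕ), (∀ p ∈ Q, p.1 ≤ p.2.1 ∧ p.2.1 ≤ m ∧ p.2.2.1 ≤ p.2.2.2 ∧
        p.2.2.2 ≤ m ∧ w + (u p.1 - u 0) + (u p.2.2.1 - u 0) ∉ D ∧
        w + R + (u p.2.1 - u 0) + (u p.2.2.1 - u 0) ∉ D ∧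
        w + R + (u p.1 - u 0) + (u p.2.2.2 - u 0) ∉ D ∧
        w + 2 * R + (u p.2.1 - u 0) + (u p.2.2.2 - u 0) ∉ D) →
      (#Q : ℝ) ≤ e * ((m + 1 : ℕ) : ℝ) ^ 4 := by
  classical
  obtain ⟨c, hc, C, hC, hfew⟩ := hfew
  -- choice of `m`
  obtain ⟨M, hM0, hM⟩ : ∃ M : ℕ, 0 < M ∧ C * 256 * (M : ℝ) ^ (-c) ≤ e := by
    have h1 : Filter.Tendsto (fun x : ℝ => x ^ (-c)) Filter.atTop (nhds 0) :=
      tendsto_rpow_neg_atTop hc
    have h2 := (h1.comp tendsto_natCast_atTop_atTop).const_mul (C * 256)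
    rw [mul_zero] at h2
    have h3 := (h2.eventually (ge_mem_nhds he)).and (Filter.eventually_gt_atTop 0)
    obtain ⟨M, hM1, hM2⟩ := h3.exists
    exact ⟨M, hM2, hM1⟩
  refine ⟨M - 1, fun R u hR0 hR2 hu hu6 hB w hw0 hw h3 Q hQ => ?_⟩
  have hM1 : M - 1 + 1 = M := by omega
  rw [hM1]
  let t : ℕ → ℕ := fun i => u i - u 0
  have hu0 : ∀ i, i ≤ M - 1 → u 0 ≤ u i := by
    intro i hi
    rcases Nat.eq_zero_or_pos i with rfl | h
    · exact le_rfl
    · exact (hu 0 i h hi).le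
  have ht6 : ∀ i, i ≤ M - 1 → 6 ∣ t i := fun i hi => hu6 0 i (Nat.zero_le _) hi
  have htlt : ∀ i j, i < j → j ≤ M - 1 → t i < t j := by
    intro i j hij hj
    have h1 := hu i j hij hj
    have h2 := hu0 i (by omega)
    show u i - u 0 < u j - u 0
    omega
  have hdiff : ∀ i j, i ≤ j → j ≤ M - 1 → u j - u i = t j - t i := by
    intro i j hij hj
    have h1 := hu0 i (by omega)
    show u j - u i = u j - u 0 - (u i - u 0)
    omega
  have htle : ∀ i j, i ≤ j → j ≤ M - 1 → t i ≤ t j := by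
    intro i j hij hj
    rcases hij.lt_or_eq with h | rfl
    · exact (htlt i j h hj).le
    · exact le_rfl
  have hinj : ∀ i j, i ≤ M - 1 → j ≤ M - 1 → t i = t j → i = j := by
    intro i j hi hj h
    rcases lt_trichotomy i j with h1 | h1 | h1
    · have := htlt i j h1 hj
      omega
    · exact h1
    · have := htlt j i h1 hi
      omega
  -- the four bins
  let f1 : ℕ → ℤ := fun j => -(R : ℤ) - t j
  let f2 : ℕ → ℤ := fun i => -(t i : ℤ)
  let f3 : ℕ → ℤ := fun k => (w : ℤ) + t k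
  let f4 : ℕ → ℤ := fun l => (w : ℤ) + R + t l
  set A := (range M).image f1 ∪ (range M).image f2 ∪ (range M).image f3 ∪ (range M).image f4 with hA
  have hr : ∀ i, i ≤ M - 1 → i ∈ range M := fun i hi => mem_range.2 (by omega)
  have m1 : ∀ i, i ≤ M - 1 → f1 i ∈ A := fun i hi => by
    rw [hA]
    exact mem_union_left _ (mem_union_left _ (mem_union_left _ (mem_image_of_mem _ (hr i hi))))
  have m2 : ∀ i, i ≤ M - 1 → f2 i ∈ A := fun i hi => by
    rw [hA]
    exact mem_union_left _ (mem_union_left _ (mem_union_right _ (mem_image_of_mem _ (hr i hi))))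
  have m3 : ∀ i, i ≤ M - 1 → f3 i ∈ A := fun i hi => by
    rw [hA]
    exact mem_union_left _ (mem_union_right _ (mem_image_of_mem _ (hr i hi)))
  have m4 : ∀ i, i ≤ M - 1 → f4 i ∈ A := fun i hi => by
    rw [hA]
    exact mem_union_right _ (mem_image_of_mem _ (hr i hi))
  have hR2' := Nat.even_iff.1 hR2
  have hw2' := Nat.even_iff.1 hw
  have hcls : ∀ v ∈ A, v % 2 = 0 ∧ (v % 3 = 0 ∨ v % 3 = (w : ℤ) % 3) := by
    intro v hv
    rw [hA, mem_union, mem_union, mem_union, mem_image, mem_image, mem_image, mem_image] at hv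
    rcases hv with ((⟨i, hi, rfl⟩ | ⟨i, hi, rfl⟩) | ⟨i, hi, rfl⟩) | ⟨i, hi, rfl⟩
    · have h1 := ht6 i (by have := mem_range.1 hi; omega)
      show (-(R : ℤ) - t i) % 2 = 0 ∧ ((-(R : ℤ) - t i) % 3 = 0 ∨ (-(R : ℤ) - t i) % 3 = (w : ℤ) % 3)
      refine ⟨by omega, ?_⟩
      rcases h3 with h3 | h3 <;> omega
    · have h1 := ht6 i (by have := mem_range.1 hi; omega)
      show (-(t i : ℤ)) % 2 = 0 ∧ ((-(t i : ℤ)) % 3 = 0 ∨ (-(t i : ℤ)) % 3 = (w : ℤ) % 3)
      exact ⟨by omega, Or.inl (by omega)⟩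
    · have h1 := ht6 i (by have := mem_range.1 hi; omega)
      show ((w : ℤ) + t i) % 2 = 0 ∧ (((w : ℤ) + t i) % 3 = 0 ∨ ((w : ℤ) + t i) % 3 = (w : ℤ) % 3)
      exact ⟨by omega, Or.inr (by omega)⟩
    · have h1 := ht6 i (by have := mem_range.1 hi; omega)
      show ((w : ℤ) + R + t i) % 2 = 0 ∧
        (((w : ℤ) + R + t i) % 3 = 0 ∨ ((w : ℤ) + R + t i) % 3 = (w : ℤ) % 3)
      refine ⟨by omega, ?_⟩
      rcases h3 with h3 | h3 <;> omega
  have hcnd : Cnd 3 A := by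
    refine Or.inr ⟨fun a ha b hb => ?_, Or.inr ⟨rfl, ?_⟩⟩
    · have e1 : ∀ v ∈ A, Even v := fun v hv => Int.even_iff.2 (hcls v hv).1
      exact (e1 a ha).sub (e1 b hb)
    · rcases (by omega : (w : ℤ) % 3 = 0 ∨ (w : ℤ) % 3 = 1 ∨ (w : ℤ) % 3 = 2) with h | h | h
      · exact ⟨1, fun v hv => by rcases (hcls v hv).2 with h' | h' <;> omega⟩
      · exact ⟨2, fun v hv => by rcases (hcls v hv).2 with h' | h' <;> omega⟩
      · exact ⟨1, fun v hv => by rcases (hcls v hv).2 with h' | h' <;> omega⟩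
  have hAM : M ≤ #A := by
    have h1 : #((range M).image f2) = M := by
      rw [card_image_of_injOn, card_range]
      intro i hi j hj hij
      rw [mem_coe, mem_range] at hi hj
      have h2 : -(t i : ℤ) = -(t j : ℤ) := hij
      exact hinj i j (by omega) (by omega) (by omega)
    calc M = #((range M).image f2) := h1.symm
      _ ≤ #A := card_le_card (by
        rw [hA]
        exact (subset_union_right.trans subset_union_left).trans subset_union_left)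
  have hA0 : 0 < #A := by omega
  have hA4 : #A ≤ 4 * M := by
    have c1 := card_union_le ((range M).image f1 ∪ (range M).image f2 ∪ (range M).image f3)
      ((range M).image f4)
    have c2 := card_union_le ((range M).image f1 ∪ (range M).image f2) ((range M).image f3)
    have c3 := card_union_le ((range M).image f1) ((range M).image f2)
    have c4 := card_image_le (s := range M) (f := f1)
    have c5 := card_image_le (s := range M) (f := f2)
    have c6 := card_image_le (s := range M) (f := f3)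
    have c7 := card_image_le (s := range M) (f := f4)
    rw [card_range] at c4 c5 c6 c7
    rw [hA]
    omega
  have hK := hfew 3 A hcnd hA0
  have hle : #Q ≤ #(Cl (NG (GZ D)) 4 A) := by
    refine card_le_card_of_injOn (fun p => ![f1 p.2.1, f2 p.1, f3 p.2.2.1, f4 p.2.2.2])
      (fun p hp => ?_) (fun p hp p' hp' h => ?_)
    · obtain ⟨q1, q2, q3, q4, q5, q6, q7, q8⟩ := hQ p hp
      have i1 : p.1 ≤ M - 1 := q1.trans q2
      have i3 : p.2.2.1 ≤ M - 1 := q3.trans q4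
      have n12 : NG (GZ D) (f1 p.2.1) (f2 p.1) := by
        have h1 := hB _ _ q1 q2
        rw [hdiff _ _ q1 q2] at h1
        refine NG_nat h0 _ ?_ (by omega) h1
        show -(t p.1 : ℤ) - (-(R : ℤ) - t p.2.1) = ((R + (t p.2.1 - t p.1) : ℕ) : ℤ)
        have := htle _ _ q1 q2
        omega
      have n34 : NG (GZ D) (f3 p.2.2.1) (f4 p.2.2.2) := by
        have h1 := hB _ _ q3 q4
        rw [hdiff _ _ q3 q4] at h1
        refine NG_nat h0 _ ?_ (by omega) h1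
        show (w : ℤ) + R + t p.2.2.2 - (w + t p.2.2.1) = ((R + (t p.2.2.2 - t p.2.2.1) : ℕ) : ℤ)
        have := htle _ _ q3 q4
        omega
      have n23 : NG (GZ D) (f2 p.1) (f3 p.2.2.1) := by
        refine NG_nat h0 _ ?_ (by omega) q5
        show (w : ℤ) + t p.2.2.1 - -(t p.1 : ℤ) = ((w + t p.1 + t p.2.2.1 : ℕ) : ℤ)
        push_cast
        ring
      have n13 : NG (GZ D) (f1 p.2.1) (f3 p.2.2.1) := by
        refine NG_nat h0 _ ?_ (by omega) q6
        show (w : ℤ) + t p.2.2.1 - (-(R : ℤ) - t p.2.1) = ((w + R + t p.2.1 + t p.2.2.1 : ℕ) : ℤ)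
        push_cast
        ring
      have n24 : NG (GZ D) (f2 p.1) (f4 p.2.2.2) := by
        refine NG_nat h0 _ ?_ (by omega) q7
        show (w : ℤ) + R + t p.2.2.2 - -(t p.1 : ℤ) = ((w + R + t p.1 + t p.2.2.2 : ℕ) : ℤ)
        push_cast
        ring
      have n14 : NG (GZ D) (f1 p.2.1) (f4 p.2.2.2) := by
        refine NG_nat h0 _ ?_ (by omega) q8
        show (w : ℤ) + R + t p.2.2.2 - (-(R : ℤ) - t p.2.1) =
          ((w + 2 * R + t p.2.1 + t p.2.2.2 : ℕ) : ℤ)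
        push_cast
        ring
      rw [mem_coe, mem_Cl]
      constructor
      · intro i
        fin_cases i
        · exact m1 _ q2
        · exact m2 _ i1
        · exact m3 _ i3
        · exact m4 _ q4
      · intro i j hij
        fin_cases i <;> fin_cases j <;> first
          | exact absurd rfl hij
          | exact n12 | exact n13 | exact n14 | exact n23 | exact n24 | exact n34
          | exact NG_symm _ _ _ n12 | exact NG_symm _ _ _ n13 | exact NG_symm _ _ _ n14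
          | exact NG_symm _ _ _ n23 | exact NG_symm _ _ _ n24 | exact NG_symm _ _ _ n34
    · obtain ⟨q1, q2, q3, q4, -⟩ := hQ p hp
      obtain ⟨q1', q2', q3', q4', -⟩ := hQ p' hp'
      have k0 : -(R : ℤ) - t p.2.1 = -(R : ℤ) - t p'.2.1 := congrFun h 0
      have k1 : -(t p.1 : ℤ) = -(t p'.1 : ℤ) := congrFun h 1
      have k2 : (w : ℤ) + t p.2.2.1 = w + t p'.2.2.1 := congrFun h 2
      have k3 : (w : ℤ) + R + t p.2.2.2 = w + R + t p'.2.2.2 := congrFun h 3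
      have l0 := hinj p.2.1 p'.2.1 q2 q2' (by omega)
      have l1 := hinj p.1 p'.1 (q1.trans q2) (q1'.trans q2') (by omega)
      have l2 := hinj p.2.2.1 p'.2.2.1 (q3.trans q4) (q3'.trans q4') (by omega)
      have l3 := hinj p.2.2.2 p'.2.2.2 q4 q4' (by omega)
      exact Prod.ext l1 (Prod.ext l0 (Prod.ext l2 l3))
  have hAR : (M : ℝ) ≤ (#A : ℝ) := by exact_mod_cast hAM
  have hAR4 : (#A : ℝ) ≤ 4 * M := by exact_mod_cast hA4
  have hleR : (#Q : ℝ) ≤ (#(Cl (NG (GZ D)) 4 A) : ℝ) := by exact_mod_cast hle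
  exact hleR.trans (hK.trans (real_aux hM0 hC hc hM _ hAR hAR4))



/-- the elements of the class of `b`, shifted by `s`, lie in the class of `b'` -/
theorem shift_class (D : Set ℕ) [DecidablePred (· ∈ D)] (q b b' n x s : ℕ) (hs : b + s ≡ b' [MOD q]) :
    #(((Ioc x (x + n)).filter fun y => y ≡ b [MOD q]).filter fun w => w + s ∈ D) ≤
      #((Ioc x (x + n)).filter fun y => y ≡ b' [MOD q] ∧ y ∈ D) + s := by
  classical
  have h1 : #(((Ioc x (x + n)).filter fun y => y ≡ b [MOD q]).filter fun w => w + s ∈ D) ≤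
      #(((Ioc x (x + n)).filter fun y => y ≡ b' [MOD q] ∧ y ∈ D) ∪ Ioc (x + n) (x + n + s)) := by
    refine card_le_card_of_injOn (fun w => w + s) (fun w hw => ?_) (fun w _ w' _ h => ?_)
    · rw [mem_coe, mem_filter, mem_filter, mem_Ioc] at hw
      obtain ⟨⟨⟨w1, w2⟩, w3⟩, w4⟩ := hw
      dsimp only
      rw [mem_coe, mem_union, mem_filter, mem_Ioc, mem_Ioc]
      by_cases c : w + s ≤ x + n
      · exact Or.inl ⟨⟨by omega, c⟩, (w3.add_right s).trans hs, w4⟩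
      · exact Or.inr ⟨by omega, by omega⟩
    · dsimp only at h
      omega
  refine h1.trans ((card_union_le _ _).trans ?_)
  rw [Nat.card_Ioc]
  omega

/-- from the triples to the shares of three classes -/
theorem three_of_tri {D : Set ℕ} (q : ℕ) (hq0 : 0 < q) (m R : ℕ) (t : ℕ → ℕ) (b b₁ b₂ : ℕ)
    (hb₁ : b₁ + R ≡ b [MOD q]) (hb₂ : b + R ≡ b₂ [MOD q])
    (ht : ∀ i, i ≤ m → q ∣ t i) (η : ℝ) (hη : 0 ≤ η) (hη1 : η ≤ 1)
    (h : ∀ w : ℕ, 0 < w → w ≡ b₁ [MOD q] →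
      ∑ i ∈ range (m + 1), ∑ k ∈ range (m + 1), tri D R t w i k ≤ η * ((m + 1 : ℕ) : ℝ) ^ 2)
    (e : ℝ) (he : 0 < e) : ∃ L : ℕ, ∀ n ≥ L, ∀ x : ℕ, ((1 - η) / (q : ℝ) - e) * n ≤
      (({d : ℕ | d ≡ b₁ [MOD q] ∧ d ∈ D} ∩ Set.Ioc x (x + n)).ncard : ℝ) +
      (({d : ℕ | d ≡ b [MOD q] ∧ d ∈ D} ∩ Set.Ioc x (x + n)).ncard : ℝ) +
      (({d : ℕ | d ≡ b₂ [MOD q] ∧ d ∈ D} ∩ Set.Ioc x (x + n)).ncard : ℝ) := by
  classical
  have hq0R : (0 : ℝ) < q := by exact_mod_cast hq0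
  obtain ⟨M, hM⟩ : ∃ M : ℝ, M = ((m + 1 : ℕ) : ℝ) := ⟨_, rfl⟩
  have hM0 : 0 < M := by
    rw [hM]
    positivity
  rw [← hM] at h
  -- a bound for the shifts
  obtain ⟨Δ, hΔ⟩ : ∃ Δ : ℕ, ∀ i ∈ range (m + 1), t i ≤ Δ :=
    ⟨(range (m + 1)).sup t, fun i hi => le_sup (f := t) hi⟩
  obtain ⟨L, hL⟩ := exists_nat_gt ((3 * (R : ℝ) + 6 * Δ + 1) / e)
  refine ⟨L, fun n hn x => ?_⟩
  have hg : ∀ c : ℕ, ({d : ℕ | d ≡ c [MOD q] ∧ d ∈ D} ∩ Set.Ioc x (x + n)).ncard =
      #((Ioc x (x + n)).filter fun y => y ≡ c [MOD q] ∧ y ∈ D) := by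
    intro c
    rw [← Set.ncard_coe_finset]
    congr 1
    ext y
    simp only [coe_filter, mem_Ioc, Set.mem_inter_iff, Set.mem_Ioc, Set.mem_ofPred_eq]
    tauto
  rw [hg, hg, hg]
  obtain ⟨g, hgd⟩ : ∃ g : ℕ → ℝ, ∀ c, g c = #((Ioc x (x + n)).filter fun y => y ≡ c [MOD q] ∧ y ∈ D) :=
    ⟨_, fun _ => rfl⟩
  rw [← hgd, ← hgd, ← hgd]
  set W := (Ioc x (x + n)).filter fun y => y ≡ b₁ [MOD q] with hW
  let f : ℕ → ℝ := fun z => if z ∈ D then 1 else 0
  have hf0 : ∀ z, 0 ≤ f z := by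
    intro z
    show (0 : ℝ) ≤ if z ∈ D then 1 else 0
    split_ifs
    · exact zero_le_one
    · exact le_rfl
  have hf1 : ∀ z, z ∈ D → f z = 1 := fun z hz => if_pos hz
  have hsh : ∀ s c : ℕ, b₁ + s ≡ c [MOD q] → ∑ w ∈ W, f (w + s) ≤ g c + s := by
    intro s c hs
    have h1 := shift_class D q b₁ c n x s hs
    rw [← hW] at h1
    have h2 : ∑ w ∈ W, f (w + s) = #(W.filter fun w => w + s ∈ D) := by
      rw [card_filter]
      push_cast
      rfl
    rw [h2, hgd]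
    exact_mod_cast h1
  have hpt : ∀ w i k, 1 - tri D R t w i k ≤
      f (w + (t i + t k)) + f (w + (R + (t i + t k))) + f (w + (2 * R + (t i + t k))) := by
    intro w i k
    have k1 := hf0 (w + (t i + t k))
    have k2 := hf0 (w + (R + (t i + t k)))
    have k3 := hf0 (w + (2 * R + (t i + t k)))
    rcases tri_or D R t w i k with g1 | ⟨g1, -⟩
    · rw [g1]
      have h1 : ¬ (w + t i + t k ∉ D ∧ w + R + t i + t k ∉ D ∧ w + 2 * R + t i + t k ∉ D) := by
        intro hh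
        unfold tri at g1
        rw [if_pos hh] at g1
        exact one_ne_zero g1
      have e1 : w + t i + t k = w + (t i + t k) := by omega
      have e2 : w + R + t i + t k = w + (R + (t i + t k)) := by omega
      have e3 : w + 2 * R + t i + t k = w + (2 * R + (t i + t k)) := by omega
      rw [e1, e2, e3] at h1
      by_cases c1 : w + (t i + t k) ∈ D
      · rw [hf1 _ c1]
        linarith
      by_cases c2 : w + (R + (t i + t k)) ∈ D
      · rw [hf1 _ c2]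
        linarith
      by_cases c3 : w + (2 * R + (t i + t k)) ∈ D
      · rw [hf1 _ c3]
        linarith
      exact absurd ⟨c1, c2, c3⟩ h1
    · rw [g1]
      linarith
  -- double counting
  have hlow : (#W : ℝ) * ((1 - η) * M ^ 2) ≤ ∑ w ∈ W, ∑ i ∈ range (m + 1), ∑ k ∈ range (m + 1),
      (f (w + (t i + t k)) + f (w + (R + (t i + t k))) + f (w + (2 * R + (t i + t k)))) := by
    rw [← nsmul_eq_mul, ← sum_const]
    refine sum_le_sum fun w hw => ?_
    rw [hW, mem_filter, mem_Ioc] at hw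
    have h1 := h w (by omega) hw.2
    have h2 : ∑ i ∈ range (m + 1), ∑ k ∈ range (m + 1), (1 - tri D R t w i k) =
        M ^ 2 - ∑ i ∈ range (m + 1), ∑ k ∈ range (m + 1), tri D R t w i k := by
      simp_rw [sum_sub_distrib]
      rw [sum_const, sum_const, card_range, nsmul_eq_mul, nsmul_eq_mul, mul_one, hM]
      ring
    calc (1 - η) * M ^ 2 ≤ M ^ 2 - ∑ i ∈ range (m + 1), ∑ k ∈ range (m + 1), tri D R t w i k := by
          linarith
      _ = ∑ i ∈ range (m + 1), ∑ k ∈ range (m + 1), (1 - tri D R t w i k) := h2.symm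
      _ ≤ _ := sum_le_sum fun i _ => sum_le_sum fun k _ => hpt w i k
  have hup : ∑ w ∈ W, ∑ i ∈ range (m + 1), ∑ k ∈ range (m + 1),
      (f (w + (t i + t k)) + f (w + (R + (t i + t k))) + f (w + (2 * R + (t i + t k)))) ≤
      M ^ 2 * (g b₁ + g b + g b₂ + (3 * R + 6 * Δ)) := by
    have h1 : ∀ i ∈ range (m + 1), ∀ k ∈ range (m + 1), ∑ w ∈ W,
        (f (w + (t i + t k)) + f (w + (R + (t i + t k))) + f (w + (2 * R + (t i + t k)))) ≤
        g b₁ + g b + g b₂ + (3 * R + 6 * Δ) := by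
      intro i hi k hk
      have ti := ht i (by have := mem_range.1 hi; omega)
      have tk := ht k (by have := mem_range.1 hk; omega)
      have b1 := hΔ i hi
      have b2 := hΔ k hk
      have b1R : (t i : ℝ) ≤ Δ := by exact_mod_cast b1
      have b2R : (t k : ℝ) ≤ Δ := by exact_mod_cast b2
      have t0 : t i + t k ≡ 0 [MOD q] := (Nat.modEq_zero_iff_dvd).2 (dvd_add ti tk)
      have c1 : b₁ + (t i + t k) ≡ b₁ [MOD q] := by
        have := Nat.ModEq.add_left b₁ t0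
        rwa [add_zero] at this
      have c2 : b₁ + (R + (t i + t k)) ≡ b [MOD q] := by
        have h2 : b₁ + (R + (t i + t k)) ≡ b₁ + (R + 0) [MOD q] :=
          Nat.ModEq.add_left b₁ (Nat.ModEq.add_left R t0)
        exact h2.trans hb₁
      have c3 : b₁ + (2 * R + (t i + t k)) ≡ b₂ [MOD q] := by
        have h2 : b₁ + (2 * R + (t i + t k)) ≡ b₁ + (2 * R + 0) [MOD q] :=
          Nat.ModEq.add_left b₁ (Nat.ModEq.add_left (2 * R) t0)
        have h3 : b₁ + (2 * R + 0) = b₁ + R + R := by ring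
        rw [h3] at h2
        exact h2.trans ((hb₁.add_right R).trans hb₂)
      have s1 := hsh (t i + t k) b₁ c1
      have s2 := hsh (R + (t i + t k)) b c2
      have s3 := hsh (2 * R + (t i + t k)) b₂ c3
      push_cast at s1 s2 s3
      rw [sum_add_distrib, sum_add_distrib]
      linarith
    rw [sum_comm]
    calc ∑ i ∈ range (m + 1), ∑ w ∈ W, ∑ k ∈ range (m + 1),
          (f (w + (t i + t k)) + f (w + (R + (t i + t k))) + f (w + (2 * R + (t i + t k))))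
        = ∑ i ∈ range (m + 1), ∑ k ∈ range (m + 1), ∑ w ∈ W,
          (f (w + (t i + t k)) + f (w + (R + (t i + t k))) + f (w + (2 * R + (t i + t k)))) :=
          sum_congr rfl fun i _ => sum_comm
      _ ≤ ∑ i ∈ range (m + 1), ∑ k ∈ range (m + 1), (g b₁ + g b + g b₂ + (3 * R + 6 * Δ)) :=
          sum_le_sum fun i hi => sum_le_sum fun k hk => h1 i hi k hk
      _ = M ^ 2 * (g b₁ + g b + g b₂ + (3 * R + 6 * Δ)) := by
        rw [sum_const, sum_const, card_range, nsmul_eq_mul, nsmul_eq_mul, hM]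
        ring
  have hmain : (#W : ℝ) * (1 - η) ≤ g b₁ + g b + g b₂ + (3 * R + 6 * Δ) := by
    have h1 : M ^ 2 * ((#W : ℝ) * (1 - η)) ≤ M ^ 2 * (g b₁ + g b + g b₂ + (3 * R + 6 * Δ)) := by
      have := hlow.trans hup
      linarith
    exact le_of_mul_le_mul_left h1 (by positivity)
  have hWc : (n : ℝ) / q - 1 ≤ #W := by
    have h3 := class_count q b₁ n x hq0
    rw [← hW] at h3
    have h7 : ((n / q : ℕ) : ℝ) ≤ #W := by exact_mod_cast h3
    have h9 : (n : ℝ) / q - 1 ≤ ((n / q : ℕ) : ℝ) := by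
      have h10 : n < q * (n / q + 1) := Nat.lt_mul_div_succ n hq0
      have h11 : (n : ℝ) ≤ q * (((n / q : ℕ) : ℝ) + 1) := by exact_mod_cast h10.le
      rw [sub_le_iff_le_add, div_le_iff₀ hq0R]
      linarith
    linarith
  have hnL : (3 * (R : ℝ) + 6 * Δ + 1) / e < n := hL.trans_le (by exact_mod_cast hn)
  rw [div_lt_iff₀ he] at hnL
  have h1 : ((n : ℝ) / q - 1) * (1 - η) ≤ g b₁ + g b + g b₂ + (3 * R + 6 * Δ) :=
    (mul_le_mul_of_nonneg_right hWc (by linarith)).trans hmain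
  have h5 : ((1 - η) / (q : ℝ) - e) * n = ((n : ℝ) / q - 1) * (1 - η) + (1 - η) - n * e := by ring
  rw [h5]
  linarith

/-- **three terms for classes, with power saving** -/
theorem three_power {k : ℕ} (hk : 0 < k) {D : Set ℕ} (hD : HitsBins 4 k D) (h0 : 0 ∉ D) (η : ℝ)
    (hη : 0 < η) : ∃ c : ℝ, 0 < c ∧ ∃ C : ℝ, ∀ M : ℕ, 0 < M → 6 ∣ M → ∀ c₀ b b₁ b₂ : ℕ,
      Even c₀ → Even b → (3 ∣ c₀ ∨ 3 ∣ b) → b₁ + c₀ ≡ b [MOD M] → b + c₀ ≡ b₂ [MOD M] →
      (∃ n x : ℕ, 0 < n ∧ C * (n : ℝ) ^ (1 - c) <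
        (({d : ℕ | d ≡ c₀ [MOD M] ∧ d ∉ D} ∩ Set.Ioc x (x + n)).ncard : ℝ)) →
      ∀ e : ℝ, 0 < e → ∃ L : ℕ, ∀ n ≥ L, ∀ x : ℕ, ((1 - η) / (M : ℝ) - e) * n ≤
        (({d : ℕ | d ≡ b₁ [MOD M] ∧ d ∈ D} ∩ Set.Ioc x (x + n)).ncard : ℝ) +
        (({d : ℕ | d ≡ b [MOD M] ∧ d ∈ D} ∩ Set.Ioc x (x + n)).ncard : ℝ) +
        (({d : ℕ | d ≡ b₂ [MOD M] ∧ d ∈ D} ∩ Set.Ioc x (x + n)).ncard : ℝ) := by
  classical
  obtain ⟨η', hηd⟩ : ∃ η', η' = min η 1 := ⟨_, rfl⟩
  have hη' : 0 < η' := by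
    rw [hηd]
    exact lt_min hη one_pos
  have hη1 : η' ≤ 1 := by
    rw [hηd]
    exact min_le_right _ _
  have hηe : η' ≤ η := by
    rw [hηd]
    exact min_le_left _ _
  have hGZ : ∀ d ∈ D, GZ D (d : ℤ) := fun d hd => ⟨d, hd, rfl⟩
  obtain ⟨m, hm⟩ := few_index2 h0 (few_cliques hk hD hGZ) (η' ^ 4 / 4) (by positivity)
  obtain ⟨c, hc, -, C, -, hcube⟩ := cube m
  refine ⟨c, hc, C, fun M hM0 hM c₀ b b₁ b₂ hc₀ hb h3 hb₁ hb₂ hex e he => ?_⟩
  obtain ⟨n, x, hn, hlt⟩ := hex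
  obtain ⟨S, hS⟩ : ∃ S : Finset ℕ, S = (Ioc x (x + n)).filter fun d => d ≡ c₀ [MOD M] ∧ d ∉ D :=
    ⟨_, rfl⟩
  have hSc : ({d : ℕ | d ≡ c₀ [MOD M] ∧ d ∉ D} ∩ Set.Ioc x (x + n)).ncard = #S := by
    rw [hS, ← Set.ncard_coe_finset]
    congr 1
    ext y
    simp only [coe_filter, mem_Ioc, Set.mem_inter_iff, Set.mem_Ioc, Set.mem_ofPred_eq]
    tauto
  rw [hSc] at hlt
  obtain ⟨R, u, hu, hRu⟩ := hcube n x hn S (fun s hs => by
    rw [hS, mem_filter, mem_Ioc] at hs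
    exact hs.1) hlt
  have hmem : ∀ i j, i ≤ j → j ≤ m → x < R + (u j - u i) ∧ R + (u j - u i) ≡ c₀ [MOD M] ∧
      R + (u j - u i) ∉ D := by
    intro i j hij hj
    have h1 := hRu i j hij hj
    rw [hS, mem_filter, mem_Ioc] at h1
    exact ⟨h1.1.1, h1.2.1, h1.2.2⟩
  have hR := hmem 0 0 le_rfl (Nat.zero_le _)
  rw [Nat.sub_self, Nat.add_zero] at hR
  have hR0 : 0 < R := by omega
  have hqu : ∀ i j, i ≤ j → j ≤ m → M ∣ u j - u i := by
    intro i j hij hj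
    have h1 : R + (u j - u i) ≡ R + 0 [MOD M] := (hmem i j hij hj).2.1.trans hR.2.1.symm
    exact (Nat.modEq_zero_iff_dvd).1 (Nat.ModEq.add_left_cancel' R h1)
  have hR6 : R ≡ c₀ [MOD 6] := hR.2.1.of_dvd hM
  have hR6' : R % 6 = c₀ % 6 := hR6
  have hc₀' := Nat.even_iff.1 hc₀
  have hb' := Nat.even_iff.1 hb
  have hb6 : (b₁ + c₀) % 6 = b % 6 := hb₁.of_dvd hM
  obtain ⟨L, hL⟩ := three_of_tri (D := D) M hM0 m R (fun i => u i - u 0) b b₁ b₂
    ((Nat.ModEq.add_left b₁ hR.2.1).trans hb₁) ((Nat.ModEq.add_left b hR.2.1).trans hb₂)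
    (fun i hi => hqu 0 i (Nat.zero_le _) hi) η' hη'.le hη1 (fun w hw hwa => by
      refine tri_few (D := D) m R (fun i => u i - u 0) w η' hη'.le fun Q hQ => ?_
      have hw6 : w % 6 = b₁ % 6 := hwa.of_dvd hM
      exact hm R u hR0 (Nat.even_iff.2 (by omega)) hu
        (fun i j hij hj => hM.trans (hqu i j hij hj)) (fun i j hij hj => (hmem i j hij hj).2.2) w hw
        (Nat.even_iff.2 (by omega)) (by rcases h3 with h3 | h3 <;> omega) Q hQ) e he
  refine ⟨L, fun n' hn' x' => le_trans ?_ (hL n' hn' x')⟩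
  refine mul_le_mul_of_nonneg_right ?_ (Nat.cast_nonneg n')
  have h1 : (1 - η) / (M : ℝ) ≤ (1 - η') / (M : ℝ) :=
    div_le_div_of_nonneg_right (by linarith) (Nat.cast_nonneg M)
  linarith

end Pool.Agent.Lib_helper20.FP
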